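import Pool.Agent.LE.StmtsQZ

/-!
# Anderson (2b), block I0: the initial state

At the initial time all clocks are equal to `T = σ²`, the potential is `0`, the gauge is the constant `m`
with `G₀(x, x) = m`, `G₀ = rs 0 ζ`, `ζ = E + i η + T m`. So `κ = ζ.im = η + T Im m`, `τ = κ / Im m = T + η / Im m`,
and `τ kf ζ 0 = 1` (Ward: `KftStmt`, last part). All the constants depend only on `d` and the distance `a`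
of `|E|` to `2 d`, not on the side `M` of the torus (`M ≥ C / T²`), and not on `η`.

The rows `RalStmt` (namespace `QD`), `FmuStmt`, `KftStmt`, `KhbStmt`, `GalStmt`, `FrbStmt`, `MbrStmt`, `LowStmt`
(namespace `QF`), `BktStmt`, `IntStmt`, `DsuStmt` (`QD`), `ImmStmt` (`QZ`) are PROVED: see
`Pool/Agent/Helper54_LQZ/All.lean`, `Pool/Agent/Helper54_LQX/All.lean` for the names. They are taken as
hypotheses in the rows.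
-/

set_option autoImplicit false

open MeasureTheory ProbabilityTheory Function Filter

open scoped ENNReal BigOperators Topology NNReal ComplexOrder Matrix

noncomputable section

namespace Pool.Agent.ANI

open Pool.Agent.Anderson hiding box mem_box card_box
open Pool.Agent.Loc Pool.Agent.Mob Pool.Agent.Helper54.Bal
  Pool.Agent.Helper96.EXP Pool.Agent.BED
open Pool.Agent.LE Pool.Agent.LE.MN Pool.Agent.LE.CL Pool.Agent.LE.IR Pool.Agent.LE.QD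
  Pool.Agent.LE.QF

/-- the symbol of `N₀ = K₀ (1 - T K₀)⁻¹`, `K₀ = |G₀|²` entry by entry -/
def n0 {d M : ℕ} [NeZero M] (ζ : ℂ) (T : ℝ) (p : Tor d M) : ℝ := kf ζ p / (1 - T * kf ζ p)

/-- the part of the symbol of `N₀` above the level `t` -/
def n1 {d M : ℕ} [NeZero M] (ζ : ℂ) (T t : ℝ) (p : Tor d M) : ℝ :=
  if t < n0 ζ T p then n0 ζ T p else 0

/-- SBL: the Sobolev inequality without `log M`. Proof: as `SobStmt` (`Helper70_LQD/SOB.lean`): in `scale` the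
only property of `K` is `2^K ≤ M/40` and `1 ≤ a² 2^K`, so one takes `2^K` between `1/η²` and `2/η²`, and
`log (2^k) ≤ log (2^K)` instead of `log M`. -/
def SblStmt : Prop :=
  ∀ d : ℕ, 3 ≤ d → ∃ C : ℝ, 1 ≤ C ∧ ∀ (M : ℕ) [NeZero M] (E η : ℝ), 0 < η → η ≤ 1 →
    C / η ^ 2 ≤ M → Sob d M E η (C * η ^ (-(1 / 3 : ℝ)) * (1 + Real.log (1 / η)) ^ 2)

/-- LAM: `∑ |G₀|⁴` without `log M`. Proof: as the second part of `FrbStmt` (`Helper88_LQF/FRB.lean`) with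
`SblStmt` instead of `SobStmt`. -/
def LamStmt : Prop :=
  ∀ d : ℕ, 3 ≤ d → ∃ C : ℝ, 1 ≤ C ∧ ∀ (M : ℕ) [NeZero M] (z : ℂ), 0 < z.im → z.im ≤ 1 →
    C / z.im ^ 2 ≤ M → ∀ x : Tor d M, ∑ y, ‖rs (0 : Tor d M → ℝ) z x y‖ ^ 4 ≤
      C * z.im ^ (-(2 / 3 : ℝ)) * (1 + Real.log (1 / z.im)) ^ 6

/-- SMT: the kernel for small times. Proof: expand `e^{2 i t cos θ} = ∑_m (i t)^m / m! (e^{iθ} + e^{-iθ})^m` as in
`QD.TorStmt` (`Helper89_LQD/TOR.lean`): the coefficient of `(i t)^m / m!` in `jt M t n` is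
`(1/M) ∑_p ec(p n) (e^{iθ_p} + e^{-iθ_p})^m = ∑_{j ≤ m} binom m j [n + 2 j - m = 0 mod M]`; it is `0` for
`m < |n.valMinAbs|` (`|2 j - m| ≤ m < |n'| ≤ M / 2`), and at most `2^m`. So with `k = |n.valMinAbs| ≥ 1`
`|jt M t n| ≤ ∑_{m ≥ k} (2|t|)^m / m! ≤ 2 (2 e |t| / k)^k ≤ 2 · 2^{-k}` for `|t| ≤ k/12` (`m! ≥ (m/e)^m`, ratio of the
terms `≤ 2 |t| / k ≤ 1/6`). -/
def SmtStmt : Prop :=
  ∀ (M : ℕ) [NeZero M] (t : ℝ) (n : ZMod M), 12 * |t| ≤ (n.valMinAbs.natAbs : ℝ) →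
    ‖jt M t n‖ ≤ 2 * (1 / 2) ^ n.valMinAbs.natAbs

/-- PRD: decay of the free resolvent. Proof: as the first part of `FrbStmt` (`Helper88_LQF/FRB.lean`): for
`k = |(x i).valMinAbs| ≥ 24`: `(e - z)⁻¹ = i ∫_0^∞ e^{-i t (e - z)} dt`. The part `0 ≤ t ≤ k/12`: the kernel is
`∏_j jt M (-t) (x j)`, `|jt| ≤ 1`, and `SmtStmt` for the coordinate `i`: at most `(k/12) 2 · 2^{-k} ≤ C k^{-1}`. The
dyadic blocks `T = 2^j k / 24`, `2 T ≤ M/40`: `BktStmt`: `C T^{-1/3} (1 + log T) ≤ C k^{-1/6} 2^{-j/6}`, sum over `j`.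
The rest `t ≥ M/160`: `e^{-w M/160}/w ≤ C / M ≤ C / k` for `M ≥ C / w²`, `w = z.im` (`e^{-x} ≤ 6 x^{-3}`:
`6 · 160³ / (w⁴ M³) ≤ C / M`). If `M/80 < k/12`: the first part up to `M/160` and the rest. For `k < 24`:
`FrbStmt`. -/
def PrdStmt : Prop :=
  ∀ d : ℕ, 3 ≤ d → ∃ C : ℝ, 1 ≤ C ∧ ∀ (M : ℕ) [NeZero M] (z : ℂ), 0 < z.im → z.im ≤ 1 →
    C / z.im ^ 2 ≤ M → ∀ (x y : Tor d M) (i : Fin d), ‖rs (0 : Tor d M → ℝ) z x y‖ ≤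
      C * (1 + (((x - y) i).valMinAbs.natAbs : ℝ)) ^ (-(1 / 6 : ℝ))

/-- SYM: the symbol of the first network, two sided. Proof: (1) upper bound: `kf 0 - kf p =
(1/2) pm |1/(es k - ζ) - 1/(es (k + p) - ζ)|² ≤ (1/2) sup |es k - es (k + p)|² w^{-2} kf 0`, `w = ζ.im` (as `IxuStmt`,
`Helper63_LQZ/IXU.lean`), and `|es k - es (k + p)| ≤ ∑_i 4 |sin (π p_i / M)|`, `ds p = ∑ 4 sin² (π p_i / M)`, so
`kf 0 - kf p ≤ 2 d ds p w^{-2} kf 0`; also `|kf p| ≤ kf 0`, `kf 0 - kf p ≤ 2 kf 0`. And `min (2, 2 d x) ≤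
4 d x/(1 + x)`, `x = ds/w²`. (2) lower bound: if `8 |p_i| ≤ M` for all `i`: `GalStmt`, `min (1, x) ≥ x/(1 + x)`. If not,
`|sin (π p_i / M)| ≥ sin (π/8) ≥ 1/3` for some `i`, and `KhbStmt` (`kf = Re kh`, `KftStmt`) gives
`kf p ≤ C (1 + log (1/w)) (3 w)^{1/2} / w ≤ (1/2) kf 0` for small `w`, since `kf 0 = Im G₀(0,0) / w ≥ c / w`
(hypothesis). -/
def SymStmt : Prop :=
  ∀ (d : ℕ) (a b : ℝ), 3 ≤ d → 0 < a → 0 < b → ∃ c C : ℝ, 0 < c ∧ c ≤ 1 / 2 ∧ 1 ≤ C ∧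
    ∀ (M : ℕ) [NeZero M] (ζ : ℂ), |ζ.re| ≤ 2 * d - a → 0 < ζ.im → ζ.im ≤ c → C / ζ.im ^ 2 ≤ M →
      b ≤ ζ.im * kf ζ (0 : Tor d M) → ∀ p : Tor d M,
        c * (ds p / (ζ.im ^ 2 + ds p)) * kf ζ (0 : Tor d M) ≤ kf ζ (0 : Tor d M) - kf ζ p ∧
        kf ζ (0 : Tor d M) - kf ζ p ≤ C * (ds p / (ζ.im ^ 2 + ds p)) * kf ζ (0 : Tor d M)

/-- SYF: the first network against the lattice. `qf (Dl K)` is `(1/2) ∑ K x y (f x - f y)²`, `adj d M` has the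
symbol `es = 2 d - ds`, so the symbol of the lattice form `∑_x ∑_i (h (x + e_i) - h x)²` is `ds`. Proof: `FmuStmt`
with the symbols `kf 0 - kf p` (`KftStmt`: `KK G₀ = mlt (kf ζ)`, the row sums are `kf 0`), and `ds`. (1) `h` = the
multiplier `w²/(w² + ds)` applied to `f`: `|f - h|² + w^{-2} ds |h|²` has the symbol
`(ds/(w² + ds))² + ds w²/(w² + ds)² = ds/(w² + ds)`. (2) for all complex numbers `f = (f - h) + h`: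
`ds/(w² + ds) |f|² ≤ 2 |f - h|² + 2 w^{-2} ds |h|²`. -/
def SyfStmt : Prop :=
  ∀ (d M : ℕ) [NeZero M] (ζ : ℂ) (c C : ℝ), 0 < ζ.im → 0 < c → 0 < C →
    (∀ p : Tor d M,
      c * (ds p / (ζ.im ^ 2 + ds p)) * kf ζ (0 : Tor d M) ≤ kf ζ (0 : Tor d M) - kf ζ p ∧
      kf ζ (0 : Tor d M) - kf ζ p ≤ C * (ds p / (ζ.im ^ 2 + ds p)) * kf ζ (0 : Tor d M)) →
    ∀ f : Tor d M → ℝ,
      (∃ h : Tor d M → ℝ, c * kf ζ (0 : Tor d M) * (∑ x, (f x - h x) ^ 2 +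
          (∑ x, ∑ i, (h (x + Pi.single i 1) - h x) ^ 2) / ζ.im ^ 2) ≤
        qf (Dl (KK (rs (0 : Tor d M → ℝ) ζ))) f) ∧
      ∀ h : Tor d M → ℝ, qf (Dl (KK (rs (0 : Tor d M → ℝ) ζ))) f ≤
        2 * C * kf ζ (0 : Tor d M) * (∑ x, (f x - h x) ^ 2 +
          (∑ x, ∑ i, (h (x + Pi.single i 1) - h x) ^ 2) / ζ.im ^ 2)

/-- WHT: `N₀` is a small white part plus a part with a small diagonal. Proof: `w = ζ.im`, `t = s^{ε-1}`,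
`κ kf 0 = Im m`, `τ = κ / Im m ≥ T`, so `T kf p ≤ τ kf p`, `n0 p ≤ kf p / (1 - τ kf p)` if `kf p ≥ 0`, `p ≠ 0` (if `kf p < 0`:
`n0 p < 0 < t`), `n0 0 = Im m / η`. (a) if `|sin (π p_i / M)| ≥ w^{1-4ε}` for some `i`: `kf p ≤
C (1 + log (1/w)) w^{2ε-1} ≤ w^{ε-1}/C' ` (`KhbStmt`) and `1 - τ kf p ≥ 1/2`, so `n0 p ≤ t` (`t ≥ T^{ε-1} ≥ c w^{ε-1}`). (b) if
not: `ds p ≤ 4 d w^{2-8ε}` and `SymStmt`: `1 - τ kf p ≥ c ds p/(w² + ds p)`, `n0 p ≤ A + B`, `A = C/w`, `B = C w/ds p`, and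
`n0 1[n0 > t] ≤ 2 A 1[2 A > t] + 2 B 1[2 B > t]`. The number of the `p` with `ds p ≤ ρ²` is at most `C (M ρ)^d + C`
(`LowStmt` with `J = ⌈M ρ/4⌉`: `16 |p|²/M² ≤ ds p`), and `pm (B 1[0 < ds p ≤ ρ²]) ≤ C w M^{-d} M² J^{d-2} ≤
C w (ρ + 1/M)^{d-2} ≤ C w (ρ + 1/M)` (`LowStmt`). First part: `2 A > t` means `s ≥ c w^{1+2ε}`, the number of the `p` is at most
`C (M w^{1-4ε})^d` (`M w ≥ 1`): `C w^{d-1-4dε} ≤ C w^{2-12ε} ≤ C w^{3/2} s^{1/2-13ε}`. Second part: `ρ² = 2 C w s^{1-ε}`: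
`C w (w s^{1-ε})^{1/2} ≤ C w^{3/2} s^{1/2-13ε}`; if `M ρ < 1`: there is no `p ≠ 0` with `ds p ≤ ρ²`, up to a constant
(`ds p ≥ 16/M²`): then take `J = 1` only if `ρ ≥ 4/M`. -/
def WhtStmt : Prop :=
  ∀ (d : ℕ) (b ε cs Cs Ck : ℝ), 3 ≤ d → 0 < b → 0 < ε → ε ≤ 1 / 50 → 0 < cs → 1 ≤ Cs → 1 ≤ Ck →
    ∃ c C : ℝ, 0 < c ∧ c ≤ 1 / 2 ∧ 1 ≤ C ∧ ∀ (M : ℕ) [NeZero M] (E η T s : ℝ) (m ζ : ℂ),
      ζ = ⟨E, η⟩ + (T : ℂ) * m → 0 < η → η ≤ T → T ≤ c → 0 < s → s ≤ T → b ≤ m.im → m.im ≤ 1 / b →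
      C / T ^ 2 ≤ M → rs (0 : Tor d M → ℝ) ζ 0 0 = m →
      (∀ p : Tor d M,
        cs * (ds p / (ζ.im ^ 2 + ds p)) * kf ζ (0 : Tor d M) ≤ kf ζ (0 : Tor d M) - kf ζ p) →
      (∀ (p : Tor d M) (i : Fin d), |kf ζ p| ≤ Ck * (1 + Real.log (1 / ζ.im)) / ζ.im *
        Real.sqrt (ζ.im / (ζ.im + |Real.sin (Real.pi * ((p i).valMinAbs : ℝ) / M)|))) →
        pm (n1 ζ T (s ^ (ε - 1)) : Tor d M → ℝ) ≤
          C * T ^ (3 / 2 : ℝ) * s ^ (1 / 2 - 13 * ε) + C / (η * (M : ℝ) ^ d)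

/-- WHM: the same for matrices. Proof: `FmuStmt` (1), (8), (7): `n0 ≤ t + n1`, `n1 ≥ 0` for `t ≥ 0`; `n0 (-p) = n0 p`
(`KftStmt`). `1 - T kf p > 0`: `T kf p ≤ T kf 0 = T Im m / κ < 1` (`|kf p| ≤ kf 0`), so
`(1 - T K₀) N₀ = K₀` on the symbols. -/
def WhmStmt : Prop :=
  ∀ (d M : ℕ) [NeZero M] (E η T t : ℝ) (m ζ : ℂ), ζ = ⟨E, η⟩ + (T : ℂ) * m → 0 < η → 0 < T →
    0 ≤ t → 0 < m.im → rs (0 : Tor d M → ℝ) ζ 0 0 = m →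
      (1 - T • KK (rs (0 : Tor d M → ℝ) ζ)) * mlt (n0 ζ T) = KK (rs (0 : Tor d M → ℝ) ζ) ∧
      (∀ f : Tor d M → ℝ, 0 ≤ qf (mlt (n1 ζ T t)) f ∧
        qf (mlt (n0 ζ T)) f ≤ t * ∑ x, f x ^ 2 + qf (mlt (n1 ζ T t)) f) ∧
      ∀ x y : Tor d M, mlt (n1 ζ T t) x y = mlt (n1 ζ T t) y x ∧
        mlt (n1 ζ T t) x x = pm (n1 ζ T t : Tor d M → ℝ)

/-- the initial state: constant gauge `m`, bounds for the entries, decay, `Λ`, the condition for `Θ`, the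
form of the network against the lattice, `N₀` -/
structure Start (d M : ℕ) [NeZero M] (E η T ε : ℝ) (m ζ : ℂ) (c C : ℝ) : Prop where
  hz : ζ = ⟨E, η⟩ + (T : ℂ) * m
  hm : ∀ x : Tor d M, rs (0 : Tor d M → ℝ) ζ x x = m
  hc : c ≤ m.im ∧ ‖m‖ ≤ C
  hG : ∀ x y : Tor d M, ‖rs (0 : Tor d M → ℝ) ζ x y‖ ≤ C
  hp : ∀ (x y : Tor d M) (i : Fin d), ‖rs (0 : Tor d M → ℝ) ζ x y‖ ≤
    C * (1 + (((x - y) i).valMinAbs.natAbs : ℝ)) ^ (-(1 / 6 : ℝ))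
  hk : ∀ x : Tor d M, ∑ y, ‖rs (0 : Tor d M → ℝ) ζ x y‖ ^ 2 = m.im / (η + T * m.im)
  hL : ∀ x : Tor d M, ∑ y, ‖rs (0 : Tor d M → ℝ) ζ x y‖ ^ 4 ≤ T ^ (-(2 / 3 + ε))
  hT : ∀ x : Tor d M, T * ∑ y, (rs (0 : Tor d M → ℝ) ζ x y).re ^ 2 ≤ 1 / 2 + T ^ (1 / 2 - ε)
  hF : ∀ f : Tor d M → ℝ,
    (∃ h : Tor d M → ℝ, c * (∑ x, (f x - h x) ^ 2 +
        (∑ x, ∑ i, (h (x + Pi.single i 1) - h x) ^ 2) / T ^ 2) ≤
      qf (T • Dl (KK (rs (0 : Tor d M → ℝ) ζ))) f) ∧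
    ∀ h : Tor d M → ℝ, qf (T • Dl (KK (rs (0 : Tor d M → ℝ) ζ))) f ≤
      C * (∑ x, (f x - h x) ^ 2 + (∑ x, ∑ i, (h (x + Pi.single i 1) - h x) ^ 2) / T ^ 2)
  hN : ∀ s : ℝ, 0 < s → s ≤ T → ∃ S : Matrix (Tor d M) (Tor d M) ℝ,
    (∀ x y, S x y = S y x) ∧ (∀ f, 0 ≤ qf S f) ∧
    (∀ x, S x x ≤ C * T ^ (3 / 2 : ℝ) * s ^ (1 / 2 - ε) + C / (η * (M : ℝ) ^ d)) ∧
    ∀ f : Tor d M → ℝ, qf (mlt (n0 ζ T)) f ≤ s ^ (ε / 13 - 1) * ∑ x, f x ^ 2 + qf S f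

/-- STA: the initial state. Proof: `MbrStmt` (`m`), `RalStmt` (7) (`rs 0` is translation invariant), `FrbStmt` (1)
(`|m| ≤ C`), `PrdStmt`, `RalStmt` (5), `LamStmt`, `SymStmt`, `SyfStmt`, `WhtStmt`, `WhmStmt` with `ε/13`. `c T ≤ κ ≤ C T`
(`η ≤ T`), so the logarithms are bounded by small powers of `T`. `hT`: `(Re g)² = (|g|² + Re g²)/2`, `T ∑ |G₀|² ≤ 1`,
`∑ G₀² = bh ζ 0` (`KftStmt` (2) at `p = 0`), `KhbStmt` at `p = 0` (the cosine is `1`): `T |bh ζ 0| ≤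
C T (1 + log (1/κ)) κ^{-1/2}`. -/
def StaStmt : Prop :=
  ∀ (d : ℕ) (a ε : ℝ), 3 ≤ d → 0 < a → 0 < ε → ε ≤ 1 / 10 → ∃ c C : ℝ, 0 < c ∧ c ≤ 1 / 2 ∧ 1 ≤ C ∧
    ∀ (M : ℕ) [NeZero M] (E η T : ℝ), |E| ≤ 2 * d - a → 0 < η → η ≤ T → T ≤ c → C / T ^ 2 ≤ M →
      ∃ m ζ : ℂ, Start d M E η T ε m ζ c C

end Pool.Agent.ANI
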