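import Pool.Agent.ANI.Stmts

/-!
# Anderson (2b), block I0: the initial state, part 2: the sharp lower bound

`LBS`: the lower bound of the first network with the SHARP coefficient `κ Im m (1 - T^ε)` at the sites and
`c T^{8 ε - 1}` at the bonds (helper96's repair). `BHS`: `T |∑ G₀²| ≤ T^{1/2 - ε}`.
-/

set_option autoImplicit false

open MeasureTheory ProbabilityTheory Function Filter

open scoped ENNReal BigOperators Topology NNReal ComplexOrder Matrix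

noncomputable section

namespace Pool.Agent.ANI

open Pool.Agent.Anderson hiding box mem_box card_box
open Pool.Agent.Loc Pool.Agent.Mob Pool.Agent.Helper54.Bal
  Pool.Agent.Helper96.EXP Pool.Agent.BED
open Pool.Agent.LE Pool.Agent.LE.MN Pool.Agent.LE.CL Pool.Agent.LE.IR Pool.Agent.LE.QD
  Pool.Agent.LE.QF

/-- SLB: the sharp lower bound. `κ = ζ.im = η + T Im m`, `g = Im m`; the form `κ² qf (Dl K₀)` has the symbol
`κ g (1 - kf p / kf 0)` (`κ kf 0 = g`). Proof on the symbols. `al = κ g (1 - T^ε)`, `be = c T^{8 ε - 1}`,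
`h` = the multiplier `al / (al + be ds)` applied to `f`: then `al |f - h|² + be ds |h|²` has the symbol
`al be ds / (al + be ds) ≤ min (al, be ds)`. If `|sin (π p_i / M)| ≥ κ^{1 - 4 ε}` for some `i`: `|kf p| ≤
Ck (1 + log (1/κ)) κ^{2 ε - 1} ≤ T^ε kf 0`, so the symbol is at least `al`. If not: `ds p ≤ 4 d κ^{2 - 8 ε}`, and
the hypothesis gives `κ g cs ds / (κ² + ds) ≥ κ g cs ds / ((4 d + 1) κ^{2 - 8 ε}) ≥ be ds`
(`κ ≤ T (1 + 1/b)`, `κ ≥ b T`). -/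
def SlbStmt : Prop :=
  ∀ (d : ℕ) (b ε cs Ck : ℝ), 3 ≤ d → 0 < b → 0 < ε → ε ≤ 1 / 50 → 0 < cs → 1 ≤ Ck →
    ∃ c : ℝ, 0 < c ∧ c ≤ 1 / 2 ∧ ∀ (M : ℕ) [NeZero M] (E η T : ℝ) (m ζ : ℂ),
      ζ = ⟨E, η⟩ + (T : ℂ) * m → 0 < η → η ≤ T → T ≤ c → b ≤ m.im → m.im ≤ 1 / b →
      rs (0 : Tor d M → ℝ) ζ 0 0 = m →
      (∀ p : Tor d M,
        cs * (ds p / (ζ.im ^ 2 + ds p)) * kf ζ (0 : Tor d M) ≤ kf ζ (0 : Tor d M) - kf ζ p) →
      (∀ (p : Tor d M) (i : Fin d), |kf ζ p| ≤ Ck * (1 + Real.log (1 / ζ.im)) / ζ.im *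
        Real.sqrt (ζ.im / (ζ.im + |Real.sin (Real.pi * ((p i).valMinAbs : ℝ) / M)|))) →
      ∀ f : Tor d M → ℝ, ∃ h : Tor d M → ℝ,
        (1 - T ^ ε) * ((η + T * m.im) * m.im) * ∑ x, (f x - h x) ^ 2 +
            c * T ^ (8 * ε - 1) * ∑ x, ∑ i, (h (x + Pi.single i 1) - h x) ^ 2 ≤
          (η + T * m.im) ^ 2 * qf (Dl (KK (rs (0 : Tor d M → ℝ) ζ))) f

/-- the initial state, with the sharp lower bound -/
structure Start2 (d M : ℕ) [NeZero M] (E η T ε : ℝ) (m ζ : ℂ) (c C : ℝ) : Prop extends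
    Start d M E η T ε m ζ c C where
  hB : ∀ x : Tor d M, T * ‖∑ y, rs (0 : Tor d M → ℝ) ζ x y ^ 2‖ ≤ T ^ (1 / 2 - ε)
  hS : ∀ f : Tor d M → ℝ, ∃ h : Tor d M → ℝ,
    (1 - T ^ ε) * ((η + T * m.im) * m.im) * ∑ x, (f x - h x) ^ 2 +
        c * T ^ (8 * ε - 1) * ∑ x, ∑ i, (h (x + Pi.single i 1) - h x) ^ 2 ≤
      (η + T * m.im) ^ 2 * qf (Dl (KK (rs (0 : Tor d M → ℝ) ζ))) f

/-- STB: the initial state, final form. Proof: as `StaStmt` (`Helper15_ANI/STA.lean`), with `SlbStmt`; `hB` is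
the bound used in the proof of `hT`. -/
def StbStmt : Prop :=
  ∀ (d : ℕ) (a ε : ℝ), 3 ≤ d → 0 < a → 0 < ε → ε ≤ 1 / 50 → ∃ c C : ℝ, 0 < c ∧ c ≤ 1 / 2 ∧ 1 ≤ C ∧
    ∀ (M : ℕ) [NeZero M] (E η T : ℝ), |E| ≤ 2 * d - a → 0 < η → η ≤ T → T ≤ c → C / T ^ 2 ≤ M →
      ∃ m ζ : ℂ, Start2 d M E η T ε m ζ c C

end Pool.Agent.ANI
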